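import Pool.Agent.V5helper57.Win.Cor
import Pool.Agent.X280.HP.Sec5

/-!
# The products of Birch and Swinnerton-Dyer of random elliptic curves are Brownian paths

For an integral Weierstrass equation `W` let `P(y)` be the product of `N_p / p` over the primes `p ≤ y` which do not divide
`2 Δ`. Q1 asks whether `P(y) ~ C (log y) ^ r`, so `log P(y) = r log log y + log C + o(1)`.

Let `W_c` be one of four families of equations, with integral parameters `c` and `m` marked integral points: all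
`y² = x³ + c₀ x + c₁` (`m = 0`), all equations with the point `(0, 0)` (`m = 1`), the equations
`y² + (c₀ x + c₁) y = x (x - 1) (x + c₂)` (`m = 2`), and a family with six points (`m = 6`). We prove an invariance principle
on all windows `T ≤ log log y ≤ T + l` of the time `log log y`: for `c` random in the box `|c_i| ≤ H` the path

  `t ↦ (log P(exp (exp (T + t l))) - log P(exp (exp T)) - (m + 1 / 2) t l) / √l`,  `0 ≤ t ≤ 1`,

converges in distribution, for the uniform distance, to the standard Brownian motion if `l → ∞`, uniformly in `T ≥ 0` and in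
`H ≥ y ^ 11`, where `y = exp (exp (T + l))` is the right end of the window. For `T = 0`, `l = log log x` it is the whole path of the
product up to `x`. So as long as `y ≤ H ^ (1 / 11)` the product `P(y)` behaves like the exponential of a Brownian motion
with drift `m + 1 / 2` in the time `log log y`, on all scales, and not like `C (log y) ^ r`.

From Mathlib: `IsBrownianReal B P`: `B` is a standard Brownian motion on the probability space with the measure `P`.

The law of `log P(x)` for a single `x` is in the starting files (`Pool.Agent.X280.BP`), from which also the estimates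
for the local factors, the fourth moments, the maximal inequality and the convergence of characteristic functions are used.
-/

set_option autoImplicit false

namespace Pool.Agent.Results.MP_ad1693_nt.BrownianPaths

open MeasureTheory ProbabilityTheory
open scoped NNReal

/-- The number `N_p` of the points of `W` modulo `p`, with the point at infinity. -/
noncomputable def numPoints (W : WeierstrassCurve ℤ) (p : ℕ) : ℕ :=
  Nat.card {q : ZMod p × ZMod p // q.2 ^ 2 + (W.a₁ : ZMod p) * q.1 * q.2 + (W.a₃ : ZMod p) * q.2 =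
    q.1 ^ 3 + (W.a₂ : ZMod p) * q.1 ^ 2 + (W.a₄ : ZMod p) * q.1 + (W.a₆ : ZMod p)} + 1

open Classical in
/-- The product `P(y)` of `N_p / p` over the primes `p ≤ y` which do not divide `2 Δ`. -/
noncomputable def product (W : WeierstrassCurve ℤ) (y : ℝ) : ℝ :=
  ∏ p ∈ (Finset.range (⌊y⌋₊ + 1)).filter (fun p : ℕ => p.Prime ∧ ¬ (p : ℤ) ∣ 2 * W.Δ), ((numPoints W p : ℝ) / p)

/-- The path of the equation `W` on the window `T ≤ log log y ≤ T + l`:
`t ↦ (log P(exp (exp (T + t l))) - log P(exp (exp T)) - κ t l) / √l`. -/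
noncomputable def path (κ : ℝ) (W : WeierstrassCurve ℤ) (T l t : ℝ) : ℝ :=
  (Real.log (product W (Real.exp (Real.exp (T + t * l)))) - Real.log (product W (Real.exp (Real.exp T))) - κ * (t * l)) / √l

/-- The mean value of `F` over the integral vectors `c` with `|c_i| ≤ H`. -/
noncomputable def mean {n : ℕ} (H : ℕ) (F : (Fin n → ℤ) → ℝ) : ℝ :=
  (∑ c ∈ Fintype.piFinset (fun _ : Fin n => Finset.Icc (-(H : ℤ)) H), F c) / (2 * H + 1 : ℝ) ^ n

/-- `Φ` is bounded and Lipschitz for the uniform distance on `[0, 1]`; in particular it depends only on the values on `[0, 1]`. -/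
def IsTest (Φ : (ℝ → ℝ) → ℝ) : Prop :=
  ∃ M K : ℝ, (∀ f, |Φ f| ≤ M) ∧
    ∀ (f g : ℝ → ℝ) (δ : ℝ), (∀ t ∈ Set.Icc (0 : ℝ) 1, |f t - g t| ≤ δ) → |Φ f - Φ g| ≤ K * δ

/-- **The invariance principle**: the random paths of the family `W` converge in distribution to the Brownian motion for
`l → ∞`, uniformly in `T ≥ 0` and in `H ≥ exp (exp (T + l)) ^ 11`. -/
def BrownianLimit {n : ℕ} (W : (Fin n → ℤ) → WeierstrassCurve ℤ) (κ : ℝ) : Prop :=
  ∀ (Ω : Type) [MeasurableSpace Ω] (P : Measure Ω) (B : ℝ≥0 → Ω → ℝ), IsBrownianReal B P →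
    ∀ Φ : (ℝ → ℝ) → ℝ, IsTest Φ → ∀ ε : ℝ, 0 < ε →
      ∃ l₀ : ℝ, ∀ l T : ℝ, l₀ ≤ l → 0 ≤ T → ∀ H : ℕ, Real.exp (Real.exp (T + l)) ^ 11 ≤ (H : ℝ) →
        |mean H (fun c => Φ (path κ (W c) T l)) - ∫ ω, Φ (fun t : ℝ => B t.toNNReal ω) ∂P| ≤ ε

/-- `q` is a point of the Weierstrass equation. -/
def OnCurve (W : WeierstrassCurve ℤ) (q : ℤ × ℤ) : Prop :=
  q.2 ^ 2 + W.a₁ * q.1 * q.2 + W.a₃ * q.2 = q.1 ^ 3 + W.a₂ * q.1 ^ 2 + W.a₄ * q.1 + W.a₆

/-- `y² = x³ + c₀ x + c₁`. -/
def curve0 (c : Fin 2 → ℤ) : WeierstrassCurve ℤ := ⟨0, 0, 0, c 0, c 1⟩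

/-- `y² + c₀ x y + c₂ y = x³ + c₁ x² + c₃ x`. -/
def curve1 (c : Fin 4 → ℤ) : WeierstrassCurve ℤ := ⟨c 0, c 1, c 2, c 3, 0⟩

/-- `y² + (c₀ x + c₁) y = x (x - 1) (x + c₂)`. -/
def curve2 (c : Fin 3 → ℤ) : WeierstrassCurve ℤ := ⟨c 0, c 2 - 1, c 1, -c 2, 0⟩

/-- `w = c₀² - 30`. -/
def w (c : Fin 2 → ℤ) : ℤ := c 0 ^ 2 - 30

/-- `G = 8 c₀ c₁ + 1092 - w²`. -/
def G (c : Fin 2 → ℤ) : ℤ := 8 * c 0 * c 1 + 1092 - w c ^ 2

/-- `y² + 2 w x y + (16 (c₁² - 820) - 2 w G) y = x³ - 2 G x² + (G² - 36864) x`, a Weierstrass model of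
`y² = x (c₀ x + c₁)² + (x - 1) (x - 4) (x - 9) (x - 16)`. -/
def curve6 (c : Fin 2 → ℤ) : WeierstrassCurve ℤ :=
  ⟨2 * w c, -2 * G c, 16 * (c 1 ^ 2 - 820) - 2 * w c * G c, G c ^ 2 - 36864, 0⟩

/-- The first coordinate of the marked point of `curve6` number `i`, `i = 1, 2, 3, 4`. -/
def xi (c : Fin 2 → ℤ) (i : ℤ) : ℤ := 8 * i * (c 0 * i ^ 2 + c 1) + 8 * i ^ 4 + 4 * w c * i ^ 2 + G c

/-- The six marked points of `curve6`. -/
def points6 (c : Fin 2 → ℤ) : Fin 6 → ℤ × ℤ :=
  ![(0, 0), (G c + 192, 0), (xi c 1, 4 * xi c 1), (xi c 2, 16 * xi c 2), (xi c 3, 36 * xi c 3), (xi c 4, 64 * xi c 4)]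

/-- The theorem for a family with `m` marked points. -/
def Holds {n m : ℕ} (W : (Fin n → ℤ) → WeierstrassCurve ℤ) (q : (Fin n → ℤ) → Fin m → ℤ × ℤ) : Prop :=
  (∀ c i, OnCurve (W c) (q c i)) ∧ BrownianLimit W (m + 1 / 2)

open Pool.Agent.X280.BP Pool.Agent.V5helper57.Win Pool.Agent.Y722.HS

theorem mean_eq {n : ℕ} (H : ℕ) (F : (Fin n → ℤ) → ℝ) : mean H F = EB H F := by
  unfold mean EB
  rw [Fintype.card_fin]
  rfl

theorem product_eq (W : WeierstrassCurve ℤ) (y : ℝ) : product W y = bsd W ⌊y⌋₊ := by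
  classical
  unfold product bsd
  refine Finset.prod_congr ?_ fun p _ => rfl
  ext p
  rw [Finset.mem_filter, Finset.mem_filter]
  exact Iff.rfl

theorem path_eq (κ : ℝ) (W : WeierstrassCurve ℤ) (T l : ℝ) : path κ W T l = cpath W κ T l := by
  funext t
  unfold path cpath Y
  rw [product_eq, product_eq]

theorem holds_of {n m : ℕ} {W : (Fin n → ℤ) → WeierstrassCurve ℤ} (q : (Fin n → ℤ) → Fin m → ℤ × ℤ)
    (hq : ∀ c i, OnCurve (W c) (q c i)) {V : ∀ p : ℕ, (Fin n → ZMod p) → WeierstrassCurve (ZMod p)} (h : Red W V) {C : ℝ}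
    (D : Dat (trc V) (fun p c => (V p c).Δ ≠ 0) m C) : Holds W q := by
  classical
  refine ⟨hq, ?_⟩
  rintro Ω _ P B hB Φ ⟨M, K, hM, hK⟩ ε hε
  have hK0 : 0 ≤ K := by
    have := hK 0 0 1 (fun t _ => by simp)
    simpa using this
  have hΦ : Fun Φ M K := ⟨hK0, hM, fun f g δ _ hfg => hK f g δ fun t ht => hfg t ht.1 ht.2⟩
  have h1 := donsker_of h D hB hΦ hε
  rw [Filter.eventually_atTop] at h1
  obtain ⟨l₀, hl₀⟩ := h1
  refine ⟨l₀, fun l T hl hT H hH => ?_⟩
  rw [mean_eq]
  simp only [path_eq]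
  refine hl₀ l hl T hT H ?_
  have h2 : ((Y (T + l) : ℕ) : ℝ) ≤ Real.exp (Real.exp (T + l)) := Nat.floor_le (Real.exp_pos _).le
  have h3 : ((Y (T + l) : ℕ) : ℝ) ^ 11 ≤ Real.exp (Real.exp (T + l)) ^ 11 := pow_le_pow_left₀ (by positivity) h2 11
  exact_mod_cast h3.trans hH

/-- **The products of Birch and Swinnerton-Dyer of random curves are Brownian paths.** -/
theorem result :
    Holds curve0 (fun _ => ![]) ∧
    Holds curve1 (fun _ => ![(0, 0)]) ∧
    Holds curve2 (fun _ => ![(0, 0), (1, 0)]) ∧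
    Holds curve6 points6 := by
  refine ⟨?_, ?_, ?_, ?_⟩
  · refine holds_of (W := curve0) _ (fun c i => i.elim0) Pool.Agent.X280.HP.redV0 (C := 4) ?_
    have := dat0
    exact_mod_cast this
  · refine holds_of (W := curve1) _ (fun c i => ?_) Pool.Agent.X280.HP.redV1 (C := 6) ?_
    · fin_cases i
      exact Pool.Agent.X280.HP.on1 c
    · have := dat1
      exact_mod_cast this
  · refine holds_of (W := curve2) _ (fun c i => ?_) Pool.Agent.X280.HP.redV2 (C := 10) ?_
    · fin_cases i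
      · exact (Pool.Agent.X280.HP.on2 c).1
      · exact (Pool.Agent.X280.HP.on2 c).2
    · have := dat2
      exact_mod_cast this
  · refine holds_of (W := curve6) _ (fun c i => ?_) Pool.Agent.X280.HP.redV6 (C := 400) ?_
    · exact Pool.Agent.X280.HP.on6 c i
    · have := dat6
      exact_mod_cast this

end Pool.Agent.Results.MP_ad1693_nt.BrownianPaths
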