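import Pool.Agent.V5helper57.Win.Cor
import Pool.Agent.X280.HP.Sec5

/-!
# No law `A (log y) ^ ρ` is visible for the products of Birch and Swinnerton-Dyer of almost all curves

For an integral Weierstrass equation `W` let `P(y)` be the product of `N_p / p` over the primes `p ≤ y` which do not divide
`2 Δ`. Q1 asks whether `P(y) ~ A (log y) ^ r` for every elliptic curve; Goldfeld considered the laws `P(y) ~ A (log y) ^ ρ` with
any real `ρ`.

Let `W_c` be one of four families of equations, with integral parameters `c` and `m` marked integral points: all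
`y² = x³ + c₀ x + c₁` (`m = 0`), all equations with the point `(0, 0)` (`m = 1`), the equations
`y² + (c₀ x + c₁) y = x (x - 1) (x + c₂)` (`m = 2`), and a family with six points (`m = 6`). We prove: for all `K`, `θ > 0` and
`ε > 0` there is a `δ > 0` such that for large `H`, for all the vectors `c` with `|c_i| ≤ H` up to a proportion of `ε`, there are
no real numbers `ρ`, `A` with

  `|log P(y) - (ρ log log y + A)| ≤ K` for all `y` between `H ^ δ` and `H ^ θ`.

So for almost all the curves no law `A (log y) ^ ρ`, with exponent and constant which may depend on the curve, holds between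
two powers of the height, not even up to a constant factor `exp K`, as soon as the ratio of the exponents is large: the
asymptotic formula of Q1, if true, starts only after all small powers of the height of the curve.

The proof: the whole path of `log P` is asymptotically a Brownian motion with drift (`Pool.Agent.V5helper57.Win`), on all
windows of the time `log log y` whose length tends to infinity, and the second difference of the Brownian motion over a long
window is rarely bounded.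
-/

set_option autoImplicit false

namespace Pool.Agent.Results.MP_ad1693_nt.NoVisibleLaw

/-- The number `N_p` of the points of `W` modulo `p`, with the point at infinity. -/
noncomputable def numPoints (W : WeierstrassCurve ℤ) (p : ℕ) : ℕ :=
  Nat.card {q : ZMod p × ZMod p // q.2 ^ 2 + (W.a₁ : ZMod p) * q.1 * q.2 + (W.a₃ : ZMod p) * q.2 =
    q.1 ^ 3 + (W.a₂ : ZMod p) * q.1 ^ 2 + (W.a₄ : ZMod p) * q.1 + (W.a₆ : ZMod p)} + 1

open Classical in
/-- The product `P(y)` of `N_p / p` over the primes `p ≤ y` which do not divide `2 Δ`. -/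
noncomputable def product (W : WeierstrassCurve ℤ) (y : ℝ) : ℝ :=
  ∏ p ∈ (Finset.range (⌊y⌋₊ + 1)).filter (fun p : ℕ => p.Prime ∧ ¬ (p : ℤ) ∣ 2 * W.Δ), ((numPoints W p : ℝ) / p)

/-- There are real numbers `ρ`, `A` such that `log P(y) = ρ log log y + A` up to an error of at most `K`, for all real `y` between
`H ^ δ` and `H ^ θ`. -/
def FollowsLaw (W : WeierstrassCurve ℤ) (K : ℝ) (H : ℕ) (δ θ : ℝ) : Prop :=
  ∃ ρ A : ℝ, ∀ y : ℝ, (H : ℝ) ^ δ ≤ y → y ≤ (H : ℝ) ^ θ →
    |Real.log (product W y) - (ρ * Real.log (Real.log y) + A)| ≤ K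

/-- For all `K`, `θ > 0`, `ε > 0` there is a `δ > 0` such that for all large `H` the proportion of the members of the family with
parameters `|c_i| ≤ H` which follow a law up to `K` between `H ^ δ` and `H ^ θ` is at most `ε`. -/
def NoLaw {n : ℕ} (W : (Fin n → ℤ) → WeierstrassCurve ℤ) : Prop :=
  ∀ K θ ε : ℝ, 0 < θ → 0 < ε → ∃ δ : ℝ, 0 < δ ∧ ∃ H₀ : ℕ, ∀ H : ℕ, H₀ ≤ H →
    ({c : Fin n → ℤ | (∀ i, |c i| ≤ H) ∧ FollowsLaw (W c) K H δ θ}.ncard : ℝ) ≤ ε * (2 * H + 1 : ℝ) ^ n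

/-- `q` is a point of the Weierstrass equation. -/
def OnCurve (W : WeierstrassCurve ℤ) (q : ℤ × ℤ) : Prop :=
  q.2 ^ 2 + W.a₁ * q.1 * q.2 + W.a₃ * q.2 = q.1 ^ 3 + W.a₂ * q.1 ^ 2 + W.a₄ * q.1 + W.a₆

/-- `y² = x³ + c₀ x + c₁`. -/
def curve0 (c : Fin 2 → ℤ) : WeierstrassCurve ℤ := ⟨0, 0, 0, c 0, c 1⟩

/-- `y² + c₀ x y + c₂ y = x³ + c₁ x² + c₃ x`. -/
def curve1 (c : Fin 4 → ℤ) : WeierstrassCurve ℤ := ⟨c 0, c 1, c 2, c 3, 0⟩

/-- `y² + (c₀ x + c₁) y = x (x - 1) (x + c₂)`. -/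
def curve2 (c : Fin 3 → ℤ) : WeierstrassCurve ℤ := ⟨c 0, c 2 - 1, c 1, -c 2, 0⟩

/-- `w = c₀² - 30`. -/
def w (c : Fin 2 → ℤ) : ℤ := c 0 ^ 2 - 30

/-- `G = 8 c₀ c₁ + 1092 - w²`. -/
def G (c : Fin 2 → ℤ) : ℤ := 8 * c 0 * c 1 + 1092 - w c ^ 2

/-- `y² + 2 w x y + (16 (c₁² - 820) - 2 w G) y = x³ - 2 G x² + (G² - 36864) x`, a Weierstrass model of
`y² = x (c₀ x + c₁)² + (x - 1) (x - 4) (x - 9) (x - 16)`. -/
def curve6 (c : Fin 2 → ℤ) : WeierstrassCurve ℤ :=
  ⟨2 * w c, -2 * G c, 16 * (c 1 ^ 2 - 820) - 2 * w c * G c, G c ^ 2 - 36864, 0⟩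

/-- The first coordinate of the marked point of `curve6` number `i`, `i = 1, 2, 3, 4`. -/
def xi (c : Fin 2 → ℤ) (i : ℤ) : ℤ := 8 * i * (c 0 * i ^ 2 + c 1) + 8 * i ^ 4 + 4 * w c * i ^ 2 + G c

/-- The six marked points of `curve6`. -/
def points6 (c : Fin 2 → ℤ) : Fin 6 → ℤ × ℤ :=
  ![(0, 0), (G c + 192, 0), (xi c 1, 4 * xi c 1), (xi c 2, 16 * xi c 2), (xi c 3, 36 * xi c 3), (xi c 4, 64 * xi c 4)]

/-- The theorem for a family with `m` marked points. -/
def Holds {n m : ℕ} (W : (Fin n → ℤ) → WeierstrassCurve ℤ) (q : (Fin n → ℤ) → Fin m → ℤ × ℤ) : Prop :=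
  (∀ c i, OnCurve (W c) (q c i)) ∧ NoLaw W

open Pool.Agent.X280.BP Pool.Agent.V5helper57.Win Pool.Agent.Y722.HS

theorem product_eq (W : WeierstrassCurve ℤ) (y : ℝ) : product W y = bsd W ⌊y⌋₊ := by
  classical
  unfold product bsd
  refine Finset.prod_congr ?_ fun p _ => rfl
  ext p
  rw [Finset.mem_filter, Finset.mem_filter]
  exact Iff.rfl

theorem holds_of {n m : ℕ} {W : (Fin n → ℤ) → WeierstrassCurve ℤ} (q : (Fin n → ℤ) → Fin m → ℤ × ℤ)
    (hq : ∀ c i, OnCurve (W c) (q c i)) {V : ∀ p : ℕ, (Fin n → ZMod p) → WeierstrassCurve (ZMod p)} (h : Red W V) {r C : ℝ}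
    (D : Dat (trc V) (fun p c => (V p c).Δ ≠ 0) r C) : Holds W q := by
  classical
  refine ⟨hq, fun K θ ε hθ hε => ?_⟩
  obtain ⟨δ, hδ, H₀, hH₀⟩ := no_law h D (K := K) hθ hε
  refine ⟨δ, hδ, H₀, fun H hH => ?_⟩
  have h1 := hH₀ H hH
  unfold EB at h1
  rw [div_le_iff₀ (by positivity), Fintype.card_fin, Finset.sum_boole] at h1
  refine le_trans (le_of_eq ?_) h1
  unfold FollowsLaw
  simp only [product_eq]
  rw [ncard_box H (fun c => ∃ ρ A : ℝ, ∀ y : ℝ, (H : ℝ) ^ δ ≤ y → y ≤ (H : ℝ) ^ θ →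
    |Real.log (bsd (W c) ⌊y⌋₊) - (ρ * Real.log (Real.log y) + A)| ≤ K)]

/-- **No law `A (log y) ^ ρ` is visible for almost all curves.** -/
theorem result :
    Holds curve0 (fun _ => ![]) ∧
    Holds curve1 (fun _ => ![(0, 0)]) ∧
    Holds curve2 (fun _ => ![(0, 0), (1, 0)]) ∧
    Holds curve6 points6 := by
  refine ⟨?_, ?_, ?_, ?_⟩
  · exact holds_of (W := curve0) _ (fun c i => i.elim0) Pool.Agent.X280.HP.redV0 dat0
  · refine holds_of (W := curve1) _ (fun c i => ?_) Pool.Agent.X280.HP.redV1 dat1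
    fin_cases i
    exact Pool.Agent.X280.HP.on1 c
  · refine holds_of (W := curve2) _ (fun c i => ?_) Pool.Agent.X280.HP.redV2 dat2
    fin_cases i
    · exact (Pool.Agent.X280.HP.on2 c).1
    · exact (Pool.Agent.X280.HP.on2 c).2
  · exact holds_of (W := curve6) _ (fun c i => Pool.Agent.X280.HP.on6 c i) Pool.Agent.X280.HP.redV6 dat6

end Pool.Agent.Results.MP_ad1693_nt.NoVisibleLaw
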