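import Pool.Agent.V5helper57.Uni.Osc
import Pool.Agent.X280.HP.Sec5

/-!
# The criterion of Kuo, Murty and Conrad for almost all curves

For an integral Weierstrass equation `W` and a prime `p` which does not divide `2 Δ` let `α_p`, `β_p` be the eigenvalues of the
Frobenius, so `α_p + β_p = a_p = p + 1 - N_p` and `α_p β_p = p`, and let `S(y)` be the sum of `(α_p ^ k + β_p ^ k) log p` over
these primes and the `k ≥ 1` with `p ^ k ≤ y`. By Kuo-Murty and Conrad (see the problem file) the asymptotic formula of Q1 holds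
if and only if `S(y) = o(y log y)`; the Riemann hypothesis for the `L`-function is equivalent to `S(y) = O(y (log y) ^ 2)`.

Let `W_c` be one of four families of equations, with integral parameters `c` and `m` marked integral points: all
`y² = x³ + c₀ x + c₁` (`m = 0`), all equations with the point `(0, 0)` (`m = 1`), the equations
`y² + (c₀ x + c₁) y = x (x - 1) (x + c₂)` (`m = 2`), and a family with six points (`m = 6`). We prove:

(1) For all `ε > 0` and `B` there are `κ > 0` and `C` such that for all `A ≥ 2` and all `H`, for all the `c` with `|c_i| ≤ H` up to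
a proportion of `C / (log A) ^ B`: `|S(y)| ≤ y (log y) ^ (1 / 2 + ε)` for ALL `y` with `A ≤ y ≤ H ^ κ`.

(2) For all `M` and `ε > 0` there are `w` and `A₀` such that for all `A ≥ A₀` and all `H ≥ A ^ w`, for all the `c` with `|c_i| ≤ H` up
to a proportion of `ε`: there are `y` and `y'` between `A` and `A ^ w` with `S(y) ≥ M y (log y) ^ (1 / 2)` and
`S(y') ≤ - M y' (log y') ^ (1 / 2)`.

So the condition `S(y) = o(y log y)` which is equivalent to the asymptotic formula of Q1 is satisfied for almost all curves, from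
the beginning up to a power of the height and with a saving of `(log y) ^ (1 / 2 - ε)`; and the exponent `1 / 2` is the right one:
`S(y)` oscillates, and on every interval `[A, A ^ w]` it exceeds any fixed multiple of `y (log y) ^ (1 / 2)` in both directions.

The proof: maximal inequalities for the moments of all orders of the sums over dyadic blocks for (1); the joint normal law of the
sums over the blocks of the primes between `N ^ (2 ^ i)` and `N ^ (2 ^ (i + 1))`, `i < n`, for (2). The estimates for the means and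
the variances of the traces in the families and the convergence of the moments are in the starting files (`Pool.Agent.X280.BP`,
`Pool.Agent.X280.HG`).
-/

set_option autoImplicit false

namespace Pool.Agent.Results.MP_ad1693_nt.TraceSums

/-- The number `N_p` of the points of `W` modulo `p`, with the point at infinity. -/
noncomputable def numPoints (W : WeierstrassCurve ℤ) (p : ℕ) : ℕ :=
  Nat.card {q : ZMod p × ZMod p // q.2 ^ 2 + (W.a₁ : ZMod p) * q.1 * q.2 + (W.a₃ : ZMod p) * q.2 =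
    q.1 ^ 3 + (W.a₂ : ZMod p) * q.1 ^ 2 + (W.a₄ : ZMod p) * q.1 + (W.a₆ : ZMod p)} + 1

/-- The trace of the Frobenius `a_p = p + 1 - N_p`. -/
noncomputable def trace (W : WeierstrassCurve ℤ) (p : ℕ) : ℝ := (p : ℝ) + 1 - numPoints W p

/-- The eigenvalue `α_p = (a_p + i √(4 p - a_p²)) / 2` of the Frobenius. -/
noncomputable def α (W : WeierstrassCurve ℤ) (p : ℕ) : ℂ :=
  ((trace W p : ℂ) + (√(4 * p - trace W p ^ 2) : ℝ) * Complex.I) / 2

/-- The eigenvalue `β_p = (a_p - i √(4 p - a_p²)) / 2` of the Frobenius. -/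
noncomputable def β (W : WeierstrassCurve ℤ) (p : ℕ) : ℂ :=
  ((trace W p : ℂ) - (√(4 * p - trace W p ^ 2) : ℝ) * Complex.I) / 2

open Classical in
/-- The sum `S(y)` of `(α_p ^ k + β_p ^ k) log p` over the primes `p` which do not divide `2 Δ` and the `k ≥ 1` with `p ^ k ≤ y`.
(`Nat.log p ⌊y⌋₊` is the largest `k` with `p ^ k ≤ y`; the number `α_p ^ k + β_p ^ k` is real.) -/
noncomputable def S (W : WeierstrassCurve ℤ) (y : ℝ) : ℝ :=
  ∑ p ∈ (Finset.range (⌊y⌋₊ + 1)).filter (fun p : ℕ => p.Prime ∧ ¬ (p : ℤ) ∣ 2 * W.Δ),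
    ∑ k ∈ Finset.Icc 1 (Nat.log p ⌊y⌋₊), (α W p ^ k + β W p ^ k).re * Real.log p

/-- **The uniform bound**: for all `ε > 0` and `B` there are `κ > 0` and `C` such that for all `A ≥ 2` and all `H` the proportion of
the `c` with `|c_i| ≤ H` for which `|S(y)| > y (log y) ^ (1 / 2 + ε)` for some `y` with `A ≤ y ≤ H ^ κ` is at most
`C / (log A) ^ B`. -/
def UniformBound {n : ℕ} (W : (Fin n → ℤ) → WeierstrassCurve ℤ) : Prop :=
  ∀ ε : ℝ, 0 < ε → ∀ B : ℕ, ∃ κ : ℝ, 0 < κ ∧ ∃ C : ℝ, ∀ A : ℝ, 2 ≤ A → ∀ H : ℕ,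
    ({c : Fin n → ℤ | (∀ i, |c i| ≤ H) ∧
      ∃ y : ℝ, A ≤ y ∧ y ≤ (H : ℝ) ^ κ ∧ y * Real.log y ^ (1 / 2 + ε) < |S (W c) y|}.ncard : ℝ) ≤
      C / Real.log A ^ B * (2 * H + 1 : ℝ) ^ n

/-- **The oscillation**: for all `M` and `ε > 0` there are `w` and `A₀` such that for all `A ≥ A₀` and all `H ≥ A ^ w` the proportion
of the `c` with `|c_i| ≤ H` for which there are not both a `y` between `A` and `A ^ w` with `S(y) ≥ M y (log y) ^ (1 / 2)` and a `y`
between `A` and `A ^ w` with `S(y) ≤ - M y (log y) ^ (1 / 2)` is at most `ε`. -/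
def Oscillation {n : ℕ} (W : (Fin n → ℤ) → WeierstrassCurve ℤ) : Prop :=
  ∀ M ε : ℝ, 0 < ε → ∃ w : ℕ, ∃ A₀ : ℝ, ∀ A : ℝ, A₀ ≤ A → ∀ H : ℕ, A ^ w ≤ H →
    ({c : Fin n → ℤ | (∀ i, |c i| ≤ H) ∧
      ¬ ((∃ y : ℝ, A ≤ y ∧ y ≤ A ^ w ∧ M * (y * √(Real.log y)) ≤ S (W c) y) ∧
        ∃ y : ℝ, A ≤ y ∧ y ≤ A ^ w ∧ S (W c) y ≤ -(M * (y * √(Real.log y))))}.ncard : ℝ) ≤
      ε * (2 * H + 1 : ℝ) ^ n

/-- `q` is a point of the Weierstrass equation. -/
def OnCurve (W : WeierstrassCurve ℤ) (q : ℤ × ℤ) : Prop :=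
  q.2 ^ 2 + W.a₁ * q.1 * q.2 + W.a₃ * q.2 = q.1 ^ 3 + W.a₂ * q.1 ^ 2 + W.a₄ * q.1 + W.a₆

/-- `y² = x³ + c₀ x + c₁`. -/
def curve0 (c : Fin 2 → ℤ) : WeierstrassCurve ℤ := ⟨0, 0, 0, c 0, c 1⟩

/-- `y² + c₀ x y + c₂ y = x³ + c₁ x² + c₃ x`. -/
def curve1 (c : Fin 4 → ℤ) : WeierstrassCurve ℤ := ⟨c 0, c 1, c 2, c 3, 0⟩

/-- `y² + (c₀ x + c₁) y = x (x - 1) (x + c₂)`. -/
def curve2 (c : Fin 3 → ℤ) : WeierstrassCurve ℤ := ⟨c 0, c 2 - 1, c 1, -c 2, 0⟩

/-- `w = c₀² - 30`. -/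
def w (c : Fin 2 → ℤ) : ℤ := c 0 ^ 2 - 30

/-- `G = 8 c₀ c₁ + 1092 - w²`. -/
def G (c : Fin 2 → ℤ) : ℤ := 8 * c 0 * c 1 + 1092 - w c ^ 2

/-- `y² + 2 w x y + (16 (c₁² - 820) - 2 w G) y = x³ - 2 G x² + (G² - 36864) x`, a Weierstrass model of
`y² = x (c₀ x + c₁)² + (x - 1) (x - 4) (x - 9) (x - 16)`. -/
def curve6 (c : Fin 2 → ℤ) : WeierstrassCurve ℤ :=
  ⟨2 * w c, -2 * G c, 16 * (c 1 ^ 2 - 820) - 2 * w c * G c, G c ^ 2 - 36864, 0⟩

/-- The first coordinate of the marked point of `curve6` number `i`, `i = 1, 2, 3, 4`. -/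
def xi (c : Fin 2 → ℤ) (i : ℤ) : ℤ := 8 * i * (c 0 * i ^ 2 + c 1) + 8 * i ^ 4 + 4 * w c * i ^ 2 + G c

/-- The six marked points of `curve6`. -/
def points6 (c : Fin 2 → ℤ) : Fin 6 → ℤ × ℤ :=
  ![(0, 0), (G c + 192, 0), (xi c 1, 4 * xi c 1), (xi c 2, 16 * xi c 2), (xi c 3, 36 * xi c 3), (xi c 4, 64 * xi c 4)]

/-- The theorem for a family with `m` marked points. -/
def Holds {n m : ℕ} (W : (Fin n → ℤ) → WeierstrassCurve ℤ) (q : (Fin n → ℤ) → Fin m → ℤ × ℤ) : Prop :=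
  (∀ c i, OnCurve (W c) (q c i)) ∧ UniformBound W ∧ Oscillation W

open Pool.Agent.X280.BP Pool.Agent.V5helper57.Win Pool.Agent.V5helper57.Uni Pool.Agent.Y722.HS

theorem S_eq (W : WeierstrassCurve ℤ) (y : ℝ) : S W y = kmc W ⌊y⌋₊ := by
  classical
  unfold S kmc
  refine Finset.sum_congr ?_ fun p _ => ?_
  · ext p
    rw [Finset.mem_filter, Finset.mem_filter]
    exact Iff.rfl
  · refine Finset.sum_congr rfl fun k _ => ?_
    have e1 : α W p = eig p ((p : ℝ) + 1 - np W p) := by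
      have : trace W p = (p : ℝ) + 1 - np W p := rfl
      unfold α eig
      rw [this]
      apply Complex.ext <;> simp
    have e2 : β W p = (starRingEnd ℂ) (α W p) := by
      have h2 : (starRingEnd ℂ) 2 = 2 := map_ofNat _ 2
      unfold α β
      simp [sub_eq_add_neg, h2]
    rw [e2, ← map_pow, e1]
    simp only [Complex.add_re, Complex.conj_re]
    ring

theorem ncard_le {n : ℕ} (H : ℕ) (P : (Fin n → ℤ) → Prop) [DecidablePred P] (t : ℝ)
    (h : EB H (fun c => if P c then (1 : ℝ) else 0) ≤ t) :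
    ({c : Fin n → ℤ | (∀ i, |c i| ≤ H) ∧ P c}.ncard : ℝ) ≤ t * (2 * H + 1 : ℝ) ^ n := by
  unfold EB at h
  rw [div_le_iff₀ (by positivity), Fintype.card_fin, Finset.sum_boole] at h
  rw [ncard_box H P]
  exact h

theorem holds_of {n m : ℕ} {W : (Fin n → ℤ) → WeierstrassCurve ℤ} (q : (Fin n → ℤ) → Fin m → ℤ × ℤ)
    (hq : ∀ c i, OnCurve (W c) (q c i)) {V : ∀ p : ℕ, (Fin n → ZMod p) → WeierstrassCurve (ZMod p)} (h : Red W V) {r C : ℝ}
    (D : Dat (trc V) (fun p c => (V p c).Δ ≠ 0) r C) : Holds W q := by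
  classical
  refine ⟨hq, fun ε hε B => ?_, fun M ε hε => ?_⟩
  · obtain ⟨κ, hκ, K, hK⟩ := upper h D hε B
    refine ⟨κ, hκ, K, fun A hA H => ?_⟩
    refine ncard_le H _ _ (hK A hA H _ fun c hc => ?_)
    obtain ⟨y, h1, h2, h3⟩ := hc
    rw [S_eq] at h3
    exact ⟨y, h1, h2, h3⟩
  · obtain ⟨w1, A1, h1⟩ := osc_side h D (Or.inl rfl) M (half_pos hε)
    obtain ⟨w2, A2, h2⟩ := osc_side h D (Or.inr rfl) M (half_pos hε)
    refine ⟨max w1 w2, max A1 A2, fun A hA H hH => ?_⟩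
    refine ncard_le H _ _ ?_
    have h3 := h1 (max w1 w2) (le_max_left _ _) A ((le_max_left _ _).trans hA) H hH
      (fun c => ∀ y : ℝ, A ≤ y → y ≤ A ^ max w1 w2 → 1 * kmc (W c) ⌊y⌋₊ < M * (y * √(Real.log y))) (fun c hc => hc)
    have h4 := h2 (max w1 w2) (le_max_right _ _) A ((le_max_right _ _).trans hA) H hH
      (fun c => ∀ y : ℝ, A ≤ y → y ≤ A ^ max w1 w2 → -1 * kmc (W c) ⌊y⌋₊ < M * (y * √(Real.log y))) (fun c hc => hc)
    refine (EB_mono' H _ (fun c =>
      (if ∀ y : ℝ, A ≤ y → y ≤ A ^ max w1 w2 → 1 * kmc (W c) ⌊y⌋₊ < M * (y * √(Real.log y)) then (1 : ℝ) else 0) +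
      (if ∀ y : ℝ, A ≤ y → y ≤ A ^ max w1 w2 → -1 * kmc (W c) ⌊y⌋₊ < M * (y * √(Real.log y)) then (1 : ℝ) else 0))
      fun c => ?_).trans ?_
    · by_cases hc : (∃ y : ℝ, A ≤ y ∧ y ≤ A ^ max w1 w2 ∧ M * (y * √(Real.log y)) ≤ S (W c) y) ∧
        ∃ y : ℝ, A ≤ y ∧ y ≤ A ^ max w1 w2 ∧ S (W c) y ≤ -(M * (y * √(Real.log y)))
      · rw [if_neg (not_not.2 hc)]
        positivity
      · rw [if_pos hc]
        rw [not_and_or] at hc
        push Not at hc
        rcases hc with hc | hc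
        · rw [if_pos (fun y hy1 hy2 => by
            have := hc y hy1 hy2
            rw [S_eq] at this
            linarith)]
          have : (0 : ℝ) ≤ (if ∀ y : ℝ, A ≤ y → y ≤ A ^ max w1 w2 → -1 * kmc (W c) ⌊y⌋₊ < M * (y * √(Real.log y)) then (1 : ℝ) else 0) := by
            split_ifs <;> norm_num
          linarith
        · have h5 : ∀ y : ℝ, A ≤ y → y ≤ A ^ max w1 w2 → -1 * kmc (W c) ⌊y⌋₊ < M * (y * √(Real.log y)) := fun y hy1 hy2 => by
            have := hc y hy1 hy2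
            rw [S_eq] at this
            linarith
          rw [if_pos h5]
          have : (0 : ℝ) ≤ (if ∀ y : ℝ, A ≤ y → y ≤ A ^ max w1 w2 → 1 * kmc (W c) ⌊y⌋₊ < M * (y * √(Real.log y)) then (1 : ℝ) else 0) := by
            split_ifs <;> norm_num
          linarith
    · refine le_trans (le_of_eq ?_) ((add_le_add h3 h4).trans (add_halves ε).le)
      unfold EB
      rw [Finset.sum_add_distrib, add_div]

/-- **The criterion of Kuo, Murty and Conrad for almost all curves.** -/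
theorem result :
    Holds curve0 (fun _ => ![]) ∧
    Holds curve1 (fun _ => ![(0, 0)]) ∧
    Holds curve2 (fun _ => ![(0, 0), (1, 0)]) ∧
    Holds curve6 points6 := by
  refine ⟨?_, ?_, ?_, ?_⟩
  · exact holds_of (W := curve0) _ (fun c i => i.elim0) Pool.Agent.X280.HP.redV0 dat0
  · refine holds_of (W := curve1) _ (fun c i => ?_) Pool.Agent.X280.HP.redV1 dat1
    fin_cases i
    exact Pool.Agent.X280.HP.on1 c
  · refine holds_of (W := curve2) _ (fun c i => ?_) Pool.Agent.X280.HP.redV2 dat2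
    fin_cases i
    · exact (Pool.Agent.X280.HP.on2 c).1
    · exact (Pool.Agent.X280.HP.on2 c).2
  · exact holds_of (W := curve6) _ (fun c i => Pool.Agent.X280.HP.on6 c i) Pool.Agent.X280.HP.redV6 dat6

end Pool.Agent.Results.MP_ad1693_nt.TraceSums
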