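import Pool.Agent.V5helper57.Tw.Glob

/-!
# The products of Birch and Swinnerton-Dyer of the quadratic twists of any curve are Brownian paths

For integers `a`, `b` let `P_d(n)` be the product of `N_p / p` over the good primes `p ≤ n` of the quadratic twist
`E_d : y² = x³ + a d² x + b d³` of the curve `E : y² = x³ + a x + b`. Q1 asks whether `P_d(n) ~ C (log n) ^ r`.

Let `d` be random with `|d| ≤ D`. We prove, for every `E`, an invariance principle for the whole path of `log P_d(n)` on
`x ≤ n ≤ y`, uniformly in `E`, `x`, `y` and `D ≥ y ^ 7`. The clock is the sum of `(a_p / p)²` and the centre is the sum of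
`1 / p - a_p² / (2 p²)` over the good primes of `E` between `x` and `n`, `a_p` being the trace of `E`. (By Rankin and
Selberg the clock is `log (log n / log x) + O(1)` and the centre is one half of this, for a fixed `E` and large `x`; this is
not used and not proved here.) If time is measured by the clock, then the difference of `log P_d(n) - log P_d(x)` and the
centre, divided by the square root `√τ` of the clock of the whole window, converges in distribution to the standard Brownian
motion for `τ → ∞`.

So for almost all twists of any given curve `P_d(n)` does not behave like `C (log n) ^ r` as long as `n ≤ D ^ (1 / 7)`, but like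
the exponential of a Brownian motion with the drift `1 / 2` in the time `log log n`, on all scales.

From Mathlib: `IsBrownianReal B P`: `B` is a standard Brownian motion on the probability space with the measure `P`.

The local factors of twists are from the starting files (`Pool.Agent.H491R4.TW`), as are the convergence of
characteristic functions, the fourth moments and the maximal inequality (`Pool.Agent.X280`).
-/

set_option autoImplicit false

namespace Pool.Agent.Results.MP_ad1693_nt.TwistPaths

open MeasureTheory ProbabilityTheory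
open scoped NNReal

/-- The number `N_p` of the points of `y² = x³ + a x + b` modulo `p`, with the point at infinity. -/
noncomputable def numPoints (a b : ℤ) (p : ℕ) : ℕ :=
  Nat.card {q : ZMod p × ZMod p // q.2 ^ 2 = q.1 ^ 3 + (a : ZMod p) * q.1 + (b : ZMod p)} + 1

/-- `p` is a prime which does not divide `2 (4 a³ + 27 b²)`. -/
def Good (a b : ℤ) (p : ℕ) : Prop := p.Prime ∧ ¬ (p : ℤ) ∣ 2 * (4 * a ^ 3 + 27 * b ^ 2)

open Classical in
/-- The product `P(n)` of `N_p / p` over the good primes `p ≤ n`. -/
noncomputable def product (a b : ℤ) (n : ℕ) : ℝ :=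
  ∏ p ∈ (Finset.range (n + 1)).filter (Good a b), ((numPoints a b p : ℝ) / p)

/-- The trace `a_p = p + 1 - N_p`. -/
noncomputable def trace (a b : ℤ) (p : ℕ) : ℝ := (p : ℝ) + 1 - numPoints a b p

open Classical in
/-- The clock: the sum of `(a_p / p)²` over the good primes `x < p ≤ n`. -/
noncomputable def clock (a b : ℤ) (x n : ℕ) : ℝ := ∑ p ∈ (Finset.Ioc x n).filter (Good a b), (trace a b p / p) ^ 2

open Classical in
/-- The centre: the sum of `1 / p - a_p² / (2 p²)` over the good primes `x < p ≤ n`. -/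
noncomputable def centre (a b : ℤ) (x n : ℕ) : ℝ :=
  ∑ p ∈ (Finset.Ioc x n).filter (Good a b), (1 / (p : ℝ) - trace a b p ^ 2 / (2 * (p : ℝ) ^ 2))

/-- The time change: the least `n ≥ x` at which the clock shows at least the part `t` of its value at `y`. -/
noncomputable def time (a b : ℤ) (x y : ℕ) (t : ℝ) : ℕ := sInf {n : ℕ | x ≤ n ∧ t * clock a b x y ≤ clock a b x n}

/-- The path of the twist by `d` on the window from `x` to `y`, with the clock and the centre of the curve. -/
noncomputable def path (a b d : ℤ) (x y : ℕ) (t : ℝ) : ℝ :=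
  (Real.log (product (a * d ^ 2) (b * d ^ 3) (time a b x y t)) - Real.log (product (a * d ^ 2) (b * d ^ 3) x) -
    centre a b x (time a b x y t)) / √(clock a b x y)

/-- `Φ` is bounded and Lipschitz for the uniform distance on `[0, 1]`; in particular it depends only on the values on `[0, 1]`. -/
def IsTest (Φ : (ℝ → ℝ) → ℝ) : Prop :=
  ∃ M K : ℝ, (∀ f, |Φ f| ≤ M) ∧
    ∀ (f g : ℝ → ℝ) (δ : ℝ), (∀ t ∈ Set.Icc (0 : ℝ) 1, |f t - g t| ≤ δ) → |Φ f - Φ g| ≤ K * δ

/-- **The invariance principle**: the random paths of the twists converge in distribution to the Brownian motion if the clock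
of the window tends to infinity, uniformly in the curve, the window and `D ≥ y ^ 7`. -/
def BrownianLimit : Prop :=
  ∀ (Ω : Type) [MeasurableSpace Ω] (P : Measure Ω) (B : ℝ≥0 → Ω → ℝ), IsBrownianReal B P →
    ∀ Φ : (ℝ → ℝ) → ℝ, IsTest Φ → ∀ ε : ℝ, 0 < ε →
      ∃ L : ℝ, ∀ (a b : ℤ) (x y D : ℕ), x ≤ y → L ≤ clock a b x y → y ^ 7 ≤ D →
        |(∑ d ∈ Finset.Icc (-(D : ℤ)) D, Φ (path a b d x y)) / (2 * D + 1) - ∫ ω, Φ (fun t : ℝ => B t.toNNReal ω) ∂P| ≤ ε

open Finset Pool.Agent.X280.BP Pool.Agent.V5helper57.Win Pool.Agent.Y722.HS Pool.Agent.V5helper57.Tw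
open Pool.Agent.W263.BSD (GoodPrime pointCount)
open Pool.Agent.H491R4.TW (HH)

theorem good_iff (a b : ℤ) (p : ℕ) : Good a b p ↔ GoodPrime a b p := by
  unfold Good GoodPrime
  have e : 2 * (-4 * a ^ 3 - 27 * b ^ 2) = -(2 * (4 * a ^ 3 + 27 * b ^ 2)) := by ring
  rw [e, dvd_neg]

theorem trace_eq {a b : ℤ} {p : ℕ} (h : Good a b p) : trace a b p = aT a b p := by
  unfold trace numPoints aT Pool.Agent.R459.Bsd.TT pointCount
  rw [if_pos ((good_iff a b p).1 h)]
  push_cast
  ring

theorem filt (a b : ℤ) (x n : ℕ) (F G : ℕ → ℝ) (h1 : ∀ p, Good a b p → F p = G p) (h2 : ∀ p, ¬ Good a b p → G p = 0) :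
    (by classical exact ∑ p ∈ (Finset.Ioc x n).filter (Good a b), F p) = ∑ p ∈ (Ico (x + 1) (n + 1)).filter Nat.Prime, G p := by
  classical
  have e : ∑ p ∈ (Ico (x + 1) (n + 1)).filter Nat.Prime, G p = ∑ p ∈ (Finset.Ioc x n).filter (Good a b), G p := by
    symm
    apply Finset.sum_subset
    · intro p hp
      rw [Finset.mem_filter, Finset.mem_Ioc] at hp
      rw [Finset.mem_filter, Finset.mem_Ico]
      exact ⟨by omega, hp.2.1⟩
    · intro p hp hnp
      rw [Finset.mem_filter, Finset.mem_Ico] at hp
      apply h2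
      intro hg
      apply hnp
      rw [Finset.mem_filter, Finset.mem_Ioc]
      exact ⟨by omega, hg⟩
  rw [e]
  refine Finset.sum_congr ?_ fun p hp => ?_
  · congr
  · exact h1 p (Finset.mem_filter.1 hp).2

theorem clock_eq (a b : ℤ) (x n : ℕ) : clock a b x n = ck a b (x + 1) (n + 1) := by
  classical
  unfold clock ck
  refine Eq.trans ?_ (filt a b x n (fun p => (trace a b p / p) ^ 2) (fun p => (aT a b p / p) ^ 2) (fun p hp => ?_) (fun p hp => ?_))
  · refine Finset.sum_congr ?_ fun p _ => rfl
    congr
  · rw [trace_eq hp]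
  · rw [aT_bad (fun h => hp ((good_iff a b p).2 h))]
    simp

theorem centre_eq (a b : ℤ) (x n : ℕ) : centre a b x n = cen a b (x + 1) (n + 1) := by
  classical
  unfold centre cen
  refine Eq.trans ?_ ((filt a b x n (fun p => 1 / (p : ℝ) - trace a b p ^ 2 / (2 * (p : ℝ) ^ 2))
    (fun p => if GoodPrime a b p then 1 / (p : ℝ) - aT a b p ^ 2 / (2 * (p : ℝ) ^ 2) else 0) (fun p hp => ?_) (fun p hp => ?_)).trans ?_)
  · refine Finset.sum_congr ?_ fun p _ => rfl
    congr
  · rw [trace_eq hp, if_pos ((good_iff a b p).1 hp)]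
  · rw [if_neg (fun h => hp ((good_iff a b p).2 h))]
  · refine Finset.sum_congr rfl fun p _ => ?_
    congr

theorem time_eq (a b : ℤ) (x y : ℕ) (t : ℝ) : time a b x y t = tm a b x y t := by
  unfold time tm
  simp only [clock_eq]

theorem log_product (a b d : ℤ) (n : ℕ) : Real.log (product (a * d ^ 2) (b * d ^ 3) n) = sH a b d 0 (n + 1) := by
  classical
  unfold product sH
  rw [Real.log_prod]
  · have e : ∑ p ∈ (Ico 0 (n + 1)).filter Nat.Prime, HH a b p d =
        ∑ p ∈ (Finset.range (n + 1)).filter (Good (a * d ^ 2) (b * d ^ 3)), HH a b p d := by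
      symm
      apply Finset.sum_subset
      · intro p hp
        rw [Finset.mem_filter, Finset.mem_range] at hp
        rw [Finset.mem_filter, Finset.mem_Ico]
        exact ⟨⟨Nat.zero_le _, hp.1⟩, hp.2.1⟩
      · intro p hp hnp
        rw [Finset.mem_filter, Finset.mem_Ico] at hp
        unfold HH Pool.Agent.R459.Bsd.GG
        rw [if_neg]
        intro hg
        apply hnp
        rw [Finset.mem_filter, Finset.mem_range]
        exact ⟨hp.1.2, (good_iff _ _ _).2 hg⟩
    rw [e]
    refine Finset.sum_congr rfl fun p hp => ?_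
    rw [Finset.mem_filter] at hp
    unfold HH Pool.Agent.R459.Bsd.GG numPoints pointCount
    rw [if_pos ((good_iff _ _ _).1 hp.2)]
    push_cast
    rfl
  · intro p hp
    rw [Finset.mem_filter] at hp
    have hp0 : (0 : ℝ) < p := by exact_mod_cast hp.2.1.pos
    have : (0 : ℝ) < numPoints (a * d ^ 2) (b * d ^ 3) p := by
      unfold numPoints
      positivity
    positivity

theorem sum_eq (D : ℕ) (F : ℤ → ℝ) : (∑ d ∈ Finset.Icc (-(D : ℤ)) D, F d) / (2 * D + 1) = EB D (fun c : Fin 1 → ℤ => F (c 0)) := by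
  unfold EB
  rw [Fintype.card_fin, pow_one]
  congr 1
  symm
  refine Finset.sum_bij (fun c _ => c 0) ?_ ?_ ?_ ?_
  · intro c hc
    exact (Fintype.mem_piFinset.1 hc) 0
  · intro c _ c' _ h
    funext i
    rw [Subsingleton.elim i 0]
    exact h
  · intro d hd
    exact ⟨fun _ => d, Fintype.mem_piFinset.2 fun _ => hd, rfl⟩
  · intro c _
    rfl

theorem sH_add (a b d : ℤ) {u v w : ℕ} (h : u ≤ v) (h' : v ≤ w) : sH a b d u w = sH a b d u v + sH a b d v w := by
  unfold sH
  rw [← Finset.Ico_union_Ico_eq_Ico h h', Finset.filter_union, Finset.sum_union]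
  apply Finset.disjoint_filter_filter
  exact Finset.Ico_disjoint_Ico_consecutive u v w

theorem path_eq (a b d : ℤ) {x y : ℕ} (hxy : x ≤ y) {t : ℝ} (h1 : t ≤ 1) :
    path a b d x y t = (sH a b d (x + 1) (tm a b x y t + 1) - cen a b (x + 1) (tm a b x y t + 1)) / √(ck a b (x + 1) (y + 1)) := by
  unfold path
  rw [time_eq, log_product, log_product, centre_eq, clock_eq]
  have h2 := (tm_spec (a := a) (b := b) hxy h1).1
  rw [sH_add a b d (Nat.zero_le (x + 1)) (show x + 1 ≤ tm a b x y t + 1 by omega)]
  congr 2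
  ring

/-- **The products of Birch and Swinnerton-Dyer of the quadratic twists of any curve are Brownian paths.** -/
theorem result : BrownianLimit := by
  classical
  rintro Ω _ P B hB Φ ⟨M, K, hM, hK⟩ ε hε
  have hK0 : 0 ≤ K := by
    have := hK 0 0 1 (fun t _ => by simp)
    simpa using this
  have hΦ : Fun Φ M K := ⟨hK0, hM, fun f g δ _ hfg => hK f g δ fun t ht => hfg t ht.1 ht.2⟩
  obtain ⟨L, _, hL⟩ := twist_paths hB hΦ hε
  refine ⟨L, fun a b x y D hxy hτ hD => ?_⟩
  rw [clock_eq] at hτ
  have h1 := hL a b x y D hxy hτ hD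
  rw [sum_eq D (fun d => Φ (path a b d x y))]
  have e : (fun c : Fin 1 → ℤ => Φ (path a b (c 0) x y)) = fun c : Fin 1 → ℤ =>
      Φ (fun t => (sH a b (c 0) (x + 1) (tm a b x y t + 1) - cen a b (x + 1) (tm a b x y t + 1)) / √(ck a b (x + 1) (y + 1))) := by
    funext c
    have h2 := hK (path a b (c 0) x y) (fun t => (sH a b (c 0) (x + 1) (tm a b x y t + 1) -
      cen a b (x + 1) (tm a b x y t + 1)) / √(ck a b (x + 1) (y + 1))) 0 (fun t ht => by
        rw [path_eq a b (c 0) hxy ht.2, sub_self, abs_zero])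
    rw [mul_zero] at h2
    exact sub_eq_zero.1 (abs_eq_zero.1 (le_antisymm h2 (abs_nonneg _)))
  rw [e]
  exact h1

end Pool.Agent.Results.MP_ad1693_nt.TwistPaths
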